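import Mathlib
import Pool.Agent.KS6_80.PB.D

/-!
# MP_ded7b1_an: every separable infinite-dimensional Banach space with the metric approximation
property is isomorphic to a counterexample
-/

set_option autoImplicit false

namespace Pool.Agent.Results.MP_ded7b1_an.EveryMAPSpace

open scoped Topology ENNReal
open Filter

noncomputable section

/-- The metric approximation property of the real or complex normed space `E`: for every compact
`K` and every `ε > 0` there is a finite-rank operator `T` on `E` of norm at most one with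
`‖T x - x‖ < ε` for all `x` in `K`. -/
def HasMAP (𝕜 : Type*) [RCLike 𝕜] (E : Type*) [NormedAddCommGroup E] [NormedSpace 𝕜 E] : Prop :=
  ∀ K : Set E, IsCompact K → ∀ ε : ℝ, 0 < ε → ∃ T : E →L[𝕜] E,
    FiniteDimensional 𝕜 (LinearMap.range (T : E →ₗ[𝕜] E)) ∧ ‖T‖ ≤ 1 ∧ ∀ x ∈ K, ‖T x - x‖ < ε

/-- The normed space `X` has a `π_Λ`-basis: there are finite-rank projections `u n` on `X` with
`u n x → x` for every `x`, with `u m ∘ u n = u n` whenever `n ≤ m`, and with `‖u n‖ ≤ Λ`. -/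
def HasPiBasis (𝕜 : Type*) [RCLike 𝕜] (X : Type*) [NormedAddCommGroup X] [NormedSpace 𝕜 X]
    (Λ : ℝ) : Prop :=
  ∃ u : ℕ → X →L[𝕜] X,
    (∀ n, FiniteDimensional 𝕜 (LinearMap.range (u n : X →ₗ[𝕜] X))) ∧
    (∀ n x, u n (u n x) = u n x) ∧
    (∀ x, Tendsto (fun n => u n x) atTop (𝓝 x)) ∧
    (∀ m n, n ≤ m → ∀ x, u m (u n x) = u n x) ∧
    ∀ n, ‖u n‖ ≤ Λ

/-- `G ⊆ Z` obstructs finite-rank projections of norm at most `1 + ε`: each of them moves some
element of `G` by more than `ε`; and `Z` has no `π_{1+ε}`-basis. -/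
def Obstructs (𝕜 : Type*) [RCLike 𝕜] (Z : Type*) [NormedAddCommGroup Z] [NormedSpace 𝕜 Z]
    (G : Set Z) (ε : ℝ) : Prop :=
  (∀ P : Z →L[𝕜] Z, FiniteDimensional 𝕜 (LinearMap.range (P : Z →ₗ[𝕜] Z)) →
    (∀ z, P (P z) = P z) → ‖P‖ ≤ 1 + ε → ∃ x ∈ G, ε < ‖P x - x‖) ∧
  ¬ HasPiBasis 𝕜 Z (1 + ε)

universe u v

/-- For every `1 ≤ p ≤ ∞` there are `ε > 0` and a finite set `F ⊆ E` which, seen in the
`ℓ^p`-sum of `E` and any normed space `Y` (in particular `Y = C_p`), obstructs finite-rank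
projections of norm at most `1 + ε`. -/
def BadSums (𝕜 : Type*) [RCLike 𝕜] (E : Type*) [NormedAddCommGroup E] [NormedSpace 𝕜 E] : Prop :=
  ∀ (p : ℝ≥0∞) [Fact (1 ≤ p)], ∃ (ε : ℝ) (F : Finset E), 0 < ε ∧
    ∀ (Y : Type v) [NormedAddCommGroup Y] [NormedSpace 𝕜 Y],
      Obstructs 𝕜 (WithLp p (E × Y)) {z | ∃ x ∈ F, z = WithLp.toLp p (x, 0)} ε

/-- `X` has a Schauder basis: there are vectors `x j` and continuous coordinate functionals `f j`
with `f i (x j) = δ_ij` and `y = ∑ j, f j (y) x j` (norm convergence) for all `y`. -/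
def HasSchauderBasis (𝕜 : Type*) [RCLike 𝕜] (X : Type*) [NormedAddCommGroup X]
    [NormedSpace 𝕜 X] : Prop :=
  ∃ (x : ℕ → X) (f : ℕ → X →L[𝕜] 𝕜), (∀ i j, f i (x j) = if i = j then 1 else 0) ∧
    ∀ y, Tendsto (fun n => ∑ j ∈ Finset.range n, f j y • x j) atTop (𝓝 y)

/-- `X` is isomorphic to a Banach space with the metric approximation property. -/
def IsoMAP (𝕜 : Type*) [RCLike 𝕜] (X : Type u) [NormedAddCommGroup X] [NormedSpace 𝕜 X] : Prop :=
  ∃ (E : Type u) (_ : NormedAddCommGroup E) (_ : NormedSpace 𝕜 E),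
    CompleteSpace E ∧ Nonempty (E ≃L[𝕜] X) ∧ HasMAP 𝕜 E

/-- `X` is isomorphic to a separable Banach space with the metric approximation property all
whose `ℓ^p`-sums are obstructed. -/
def IsoBad (𝕜 : Type*) [RCLike 𝕜] (X : Type u) [NormedAddCommGroup X] [NormedSpace 𝕜 X] : Prop :=
  ∃ (E : Type u) (_ : NormedAddCommGroup E) (_ : NormedSpace 𝕜 E),
    CompleteSpace E ∧ TopologicalSpace.SeparableSpace E ∧ Nonempty (E ≃L[𝕜] X) ∧
      HasMAP 𝕜 E ∧ BadSums.{v} 𝕜 E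

open Pool.Agent.Helper519.Renorm Pool.Agent.KS6_80.PB

/-- A single statement for all `p`. -/
lemma obstruction {𝕜 : Type*} [RCLike 𝕜] {X : Type*} [NormedAddCommGroup X] [NormedSpace 𝕜 X]
    (B : BSys 𝕜 X) (p : ℝ≥0∞) [Fact (1 ≤ p)] : ∃ γ : ℝ, 0 < γ ∧
    ∀ (Y : Type u) [NormedAddCommGroup Y] [NormedSpace 𝕜 Y]
      (P : WithLp p (NSp B × Y) →L[𝕜] WithLp p (NSp B × Y)),
      FiniteDimensional 𝕜 (LinearMap.range
        (P : WithLp p (NSp B × Y) →ₗ[𝕜] WithLp p (NSp B × Y))) →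
      (∀ w, P (P w) = P w) → (∀ w, ‖P w‖ ≤ (1 + γ) * ‖w‖) →
      (∀ j < 4, B.N (PA P (B.x j) - B.x j) ≤ γ) → False := by
  by_cases hp : p = ∞
  · subst hp
    exact no_P_top B
  · exact no_P_finite B p hp

/-- The local form of the obstruction. -/
lemma local_form {𝕜 : Type*} [RCLike 𝕜] {X : Type*} [NormedAddCommGroup X] [NormedSpace 𝕜 X]
    (B : BSys 𝕜 X) (p : ℝ≥0∞) [Fact (1 ≤ p)] : ∃ (ε : ℝ) (F : Finset (NSp B)), 0 < ε ∧
    ∀ (Y : Type u) [NormedAddCommGroup Y] [NormedSpace 𝕜 Y]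
      (P : WithLp p (NSp B × Y) →L[𝕜] WithLp p (NSp B × Y)),
      FiniteDimensional 𝕜 (LinearMap.range
        (P : WithLp p (NSp B × Y) →ₗ[𝕜] WithLp p (NSp B × Y))) →
      (∀ w, P (P w) = P w) → ‖P‖ ≤ 1 + ε →
      ∃ x ∈ F, ε < ‖P (WithLp.toLp p (x, 0)) - WithLp.toLp p (x, 0)‖ := by
  classical
  obtain ⟨γ, hγ, hob⟩ := obstruction.{u} B p
  refine ⟨γ, (Finset.range 4).image fun j => ψ B (B.x j), hγ, ?_⟩
  intro Y _ _ P hfin hPP hnorm
  by_contra hcon
  push Not at hcon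
  refine hob Y P hfin hPP (fun w => P.le_of_opNorm_le hnorm w) fun j hj => ?_
  have h1 := hcon (ψ B (B.x j)) (Finset.mem_image_of_mem _ (Finset.mem_range.2 hj))
  have h3 : B.N (PA P (B.x j) - B.x j) =
      ‖(P (inl B p Y (B.x j)) - inl B p Y (B.x j)).fst‖ := by
    rw [← norm_ψ, map_sub, ψ_PA, WithLp.sub_fst]
    rfl
  rw [h3]
  exact (WithLp.norm_fst_le _ _).trans h1

lemma no_basis_of_local {𝕜 : Type*} [RCLike 𝕜] {E : Type*} [NormedAddCommGroup E]
    [NormedSpace 𝕜 E] (p : ℝ≥0∞) [Fact (1 ≤ p)] (ε : ℝ) (hε : 0 < ε) (F : Finset E)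
    (Y : Type*) [NormedAddCommGroup Y] [NormedSpace 𝕜 Y]
    (h : ∀ P : WithLp p (E × Y) →L[𝕜] WithLp p (E × Y),
      FiniteDimensional 𝕜 (LinearMap.range
        (P : WithLp p (E × Y) →ₗ[𝕜] WithLp p (E × Y))) →
      (∀ w, P (P w) = P w) → ‖P‖ ≤ 1 + ε →
      ∃ x ∈ F, ε < ‖P (WithLp.toLp p (x, 0)) - WithLp.toLp p (x, 0)‖) :
    ¬ HasPiBasis 𝕜 (WithLp p (E × Y)) (1 + ε) := by
  rintro ⟨u, hfin, huu, hlim, -, hnorm⟩
  have h1 : ∀ᶠ n in atTop, ∀ x ∈ F,
      ‖u n (WithLp.toLp p (x, 0)) - WithLp.toLp p (x, 0)‖ < ε := by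
    rw [Filter.eventually_all_finset]
    intro x _
    have := (Metric.tendsto_nhds.mp (hlim (WithLp.toLp p (x, 0)))) ε hε
    filter_upwards [this] with n hn
    rwa [dist_eq_norm] at hn
  obtain ⟨n, hn⟩ := h1.exists
  obtain ⟨x, hx, hlt⟩ := h (u n) (hfin n) (huu n) (hnorm n)
  exact lt_asymm hlt (hn x hx)

lemma badSums {𝕜 : Type*} [RCLike 𝕜] {X : Type*} [NormedAddCommGroup X] [NormedSpace 𝕜 X]
    (B : BSys 𝕜 X) : BadSums.{v} 𝕜 (NSp B) := by
  intro p _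
  obtain ⟨ε, F, hε, h⟩ := local_form.{v} B p
  refine ⟨ε, F, hε, fun Y _ _ => ⟨fun P h1 h2 h3 => ?_, no_basis_of_local p ε hε F Y (h Y)⟩⟩
  obtain ⟨x, hx, hlt⟩ := h Y P h1 h2 h3
  exact ⟨_, ⟨x, hx, rfl⟩, hlt⟩

lemma main (𝕜 : Type) [RCLike 𝕜] (X : Type u) [NormedAddCommGroup X] [NormedSpace 𝕜 X]
    [CompleteSpace X] [TopologicalSpace.SeparableSpace X] (hinf : ¬ FiniteDimensional 𝕜 X)
    (h : HasMAP 𝕜 X) :
    ∃ (E : Type u) (_ : NormedAddCommGroup E) (_ : NormedSpace 𝕜 E),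
      CompleteSpace E ∧ TopologicalSpace.SeparableSpace E ∧
      (∃ e : E ≃L[𝕜] X, (∀ z, ‖e z‖ ≤ 2 * ‖z‖) ∧ ∀ x, ‖e.symm x‖ ≤ 12 * ‖x‖) ∧
      HasMAP 𝕜 E ∧ BadSums.{v} 𝕜 E := by
  obtain ⟨B, hM, hMAP⟩ := exists_sys hinf h
  refine ⟨NSp B, inferInstance, inferInstance, inferInstance, inferInstance,
    ⟨(Ψ B).symm, fun z => ?_, fun x => ?_⟩, hMAP, badSums B⟩
  · obtain ⟨y, rfl⟩ := (Ψ B).surjective z
    rw [ContinuousLinearEquiv.symm_apply_apply, norm_Ψ]
    have := B.half_norm_le_N y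
    linarith
  · rw [ContinuousLinearEquiv.symm_symm, norm_Ψ]
    have := B.N_adm.1 x
    rw [hM] at this
    linarith

lemma basis_isoMAP {𝕜 : Type*} [RCLike 𝕜] {X : Type u} [NormedAddCommGroup X]
    [NormedSpace 𝕜 X] [CompleteSpace X] (h : HasSchauderBasis 𝕜 X) : IsoMAP 𝕜 X := by
  obtain ⟨x, f, ho, hc⟩ := h
  let S : Pool.Agent.Y496.SB.SBas 𝕜 X := ⟨x, f, ho, hc⟩
  refine ⟨Pool.Agent.Y496.SB.MSp S, inferInstance, inferInstance, inferInstance,
    ⟨(Pool.Agent.Y496.SB.Θ S).symm⟩, ?_⟩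
  let Q : ℕ → Pool.Agent.Y496.SB.MSp S →L[𝕜] Pool.Agent.Y496.SB.MSp S := fun n =>
    LinearMap.mkContinuous (Pool.Agent.Y496.SB.TT S n) 1 (fun y => by
      rw [one_mul]
      exact Pool.Agent.Y496.SB.TT_norm S n y)
  refine hasMAP_of_seq Q (fun n => ?_) (fun n => LinearMap.mkContinuous_norm_le _ zero_le_one _)
    (fun y => Pool.Agent.Y496.SB.TT_tendsto S y)
  have h1 : FiniteDimensional 𝕜
      (Submodule.span 𝕜 (S.x '' (Finset.range (2 * n + 2) : Set ℕ))) :=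
    FiniteDimensional.span_of_finite 𝕜 ((Finset.finite_toSet _).image S.x)
  have h2 : FiniteDimensional 𝕜 (Submodule.map (Pool.Agent.Y496.SB.θ S).toLinearMap
      (Submodule.span 𝕜 (S.x '' (Finset.range (2 * n + 2) : Set ℕ)))) := inferInstance
  refine Submodule.finiteDimensional_of_le (S₂ := Submodule.map
      (Pool.Agent.Y496.SB.θ S).toLinearMap
        (Submodule.span 𝕜 (S.x '' (Finset.range (2 * n + 2) : Set ℕ)))) ?_
  rintro _ ⟨y, rfl⟩
  exact Pool.Agent.Y496.SB.TT_mem S n y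

lemma separable_of_basis {𝕜 : Type*} [RCLike 𝕜] {X : Type*} [NormedAddCommGroup X]
    [NormedSpace 𝕜 X] (h : HasSchauderBasis 𝕜 X) : TopologicalSpace.SeparableSpace X := by
  obtain ⟨x, f, -, hc⟩ := h
  rw [← TopologicalSpace.isSeparable_univ_iff]
  have h1 : TopologicalSpace.IsSeparable (Submodule.span 𝕜 (Set.range x) : Set X) :=
    (Set.countable_range x).isSeparable.span
  have h3 : closure (Submodule.span 𝕜 (Set.range x) : Set X) = Set.univ := by
    rw [Set.eq_univ_iff_forall]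
    intro y
    refine mem_closure_of_tendsto (hc y) (Eventually.of_forall fun n => ?_)
    exact Submodule.sum_mem _ fun j _ => Submodule.smul_mem _ _ (Submodule.subset_span ⟨j, rfl⟩)
  have h2 := h1.closure
  rwa [h3] at h2

lemma infinite_of_basis {𝕜 : Type*} [RCLike 𝕜] {X : Type*} [NormedAddCommGroup X]
    [NormedSpace 𝕜 X] (h : HasSchauderBasis 𝕜 X) : ¬ FiniteDimensional 𝕜 X := by
  obtain ⟨x, f, ho, -⟩ := h
  intro hfin
  have hli : LinearIndependent 𝕜 x := by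
    rw [linearIndependent_iff']
    intro s g hg i hi
    have h1 := congrArg (f i) hg
    rw [map_sum, map_zero] at h1
    simp only [map_smul, smul_eq_mul, ho] at h1
    rw [Finset.sum_eq_single i] at h1
    · simpa using h1
    · intro j _ hj
      rw [if_neg (Ne.symm hj), mul_zero]
    · intro h
      exact absurd hi h
  exact Set.infinite_range_of_injective hli.injective hli.linearIndepOn_id.finite

lemma basis_ell_two (𝕜 : Type) [RCLike 𝕜] : HasSchauderBasis 𝕜 (lp (fun _ : ℕ => 𝕜) 2) := by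
  let b : HilbertBasis ℕ 𝕜 (lp (fun _ : ℕ => 𝕜) 2) := default
  refine ⟨b, fun j => innerSL 𝕜 (b j), fun i j => orthonormal_iff_ite.mp b.orthonormal i j,
    fun y => ?_⟩
  have h := (b.hasSum_repr y).tendsto_sum_nat
  refine h.congr fun n => ?_
  refine Finset.sum_congr rfl fun j _ => ?_
  rw [b.repr_apply_apply]
  rfl

/-- (1) For every infinite-dimensional separable real or complex Banach space `X` with the metric
approximation property there is a separable Banach space `E` with the metric approximation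
property, isomorphic to `X` (with `‖e‖ ≤ 2` and `‖e⁻¹‖ ≤ 12`), such that for every `1 ≤ p ≤ ∞`
there are `ε > 0` and a finite set `F ⊆ E` with the following property: for no normed space `Y`
is there a finite-rank projection `P` with `‖P‖ ≤ 1 + ε` on the `ℓ^p`-sum `E ⊕_p Y` with
`‖P x - x‖ ≤ ε` for all `x ∈ F`. In particular `E ⊕_p Y` has no `π_{1+ε}`-basis.
(2) An infinite-dimensional separable Banach space is isomorphic to such a space `E` if and only
if it is isomorphic to a Banach space with the metric approximation property.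
(3) Every Banach space with a Schauder basis (for example `ℓ²`) is separable, infinite-dimensional
and isomorphic to a Banach space with the metric approximation property. -/
theorem result (𝕜 : Type) [RCLike 𝕜] :
    (∀ (X : Type u) [NormedAddCommGroup X] [NormedSpace 𝕜 X] [CompleteSpace X]
      [TopologicalSpace.SeparableSpace X], ¬ FiniteDimensional 𝕜 X → HasMAP 𝕜 X →
      ∃ (E : Type u) (_ : NormedAddCommGroup E) (_ : NormedSpace 𝕜 E),
        CompleteSpace E ∧ TopologicalSpace.SeparableSpace E ∧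
        (∃ e : E ≃L[𝕜] X, (∀ z, ‖e z‖ ≤ 2 * ‖z‖) ∧ ∀ x, ‖e.symm x‖ ≤ 12 * ‖x‖) ∧
        HasMAP 𝕜 E ∧ BadSums.{v} 𝕜 E) ∧
    (∀ (X : Type u) [NormedAddCommGroup X] [NormedSpace 𝕜 X] [CompleteSpace X]
      [TopologicalSpace.SeparableSpace X], ¬ FiniteDimensional 𝕜 X →
      (IsoBad.{u, v} 𝕜 X ↔ IsoMAP 𝕜 X)) ∧
    (∀ (X : Type u) [NormedAddCommGroup X] [NormedSpace 𝕜 X] [CompleteSpace X],
      HasSchauderBasis 𝕜 X →
        TopologicalSpace.SeparableSpace X ∧ ¬ FiniteDimensional 𝕜 X ∧ IsoMAP 𝕜 X) ∧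
    HasSchauderBasis 𝕜 (lp (fun _ : ℕ => 𝕜) 2) := by
  refine ⟨fun X _ _ _ _ hinf h => main 𝕜 X hinf h, fun X _ _ _ _ hinf => ⟨?_, ?_⟩,
    fun X _ _ _ h => ⟨separable_of_basis h, infinite_of_basis h, basis_isoMAP h⟩,
    basis_ell_two 𝕜⟩
  · rintro ⟨E, i1, i2, h1, -, h3, h4, -⟩
    exact ⟨E, i1, i2, h1, h3, h4⟩
  · rintro ⟨E, i1, i2, h1, ⟨e⟩, h3⟩
    have hsep : TopologicalSpace.SeparableSpace E :=
      e.symm.surjective.denseRange.separableSpace e.symm.continuous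
    have hinf' : ¬ FiniteDimensional 𝕜 E := fun hfin =>
      hinf (LinearEquiv.finiteDimensional e.toLinearEquiv)
    obtain ⟨E', j1, j2, g1, g2, ⟨e', -, -⟩, g3, g4⟩ := main.{u, v} 𝕜 E hinf' h3
    exact ⟨E', j1, j2, g1, g2, ⟨e'.trans e⟩, g3, g4⟩

end

end Pool.Agent.Results.MP_ded7b1_an.EveryMAPSpace
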